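import Mathlib
import Pool.Agent.Helper477.Sph.Lens4

set_option autoImplicit false
set_option maxRecDepth 100000

namespace Pool.Agent.Q186.Lens

open Pool.Agent.Helper477.Sph

/-- the units modulo 56 up to sign -/
abbrev U56 : List ℕ := [1, 3, 5, 9, 11, 13, 15, 17, 19, 23, 25, 27]

/-- complements of `[1,1,3,9,11,13,15,17,17,23,25]` and `[1,1,3,9,11,13,15,17,23,25,25]` in `2 U` -/
abbrev La : List ℕ := [3, 5, 5, 9, 11, 13, 15, 19, 19, 23, 25, 27, 27]

/-- the other complement -/
abbrev Lb : List ℕ := [3, 5, 5, 9, 11, 13, 15, 17, 19, 19, 23, 27, 27]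

theorem cert56 : Cert 56 2 U56 La Lb where
  hU := by decide +kernel
  hU0 := by decide
  hinv := by decide +kernel
  hlen := rfl
  horb := by decide +kernel
  hne := by decide +kernel
  hL := by decide +kernel
  hL' := by decide +kernel

end Pool.Agent.Q186.Lens
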